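import Pool.Agent.H76.GX.Targets

/-!
# GMSNP: the axioms for distances
-/

set_option autoImplicit false
set_option linter.unusedVariables false

namespace Pool.Agent.H50.GX

open Pool.Agent.H68.BP Pool.Agent.H58.SF Pool.Agent.H53.GC Pool.Agent.H53.GR Pool.Agent.H53.GM
open Pool.Agent.H53.GX Pool.Agent.H76.GX
open Classical

section basic

variable {τ σ : Sig} {N k L : ℕ}

theorem rdp_gs {I S f : Finset (Fin k)} (hS : S ⊆ I) {v : Fin k} (hv : v ∈ f) :
    rdp S v ∈ gs I S f := by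
  unfold Pool.Agent.H53.GX.rdp Pool.Agent.H76.GX.gs
  split_ifs with h
  · exact Finset.mem_union_right _ (Finset.mem_image_of_mem _ (hS h))
  · exact Finset.mem_union_left _ (Finset.mem_image_of_mem _ (Finset.mem_sdiff.2 ⟨hv, h⟩))

theorem gs_congr {I S S' e : Finset (Fin k)} (h : ∀ v ∈ e, v ∈ S ↔ v ∈ S') :
    gs I S e = gs I S' e := by
  have : e \ S = e \ S' := by
    ext v
    simp only [Finset.mem_sdiff]
    constructor
    · rintro ⟨h1, h2⟩
      exact ⟨h1, fun h3 => h2 ((h v h1).2 h3)⟩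
    · rintro ⟨h1, h2⟩
      exact ⟨h1, fun h3 => h2 ((h v h1).1 h3)⟩
  unfold Pool.Agent.H76.GX.gs
  rw [this]

theorem gs_mono {I S S' e e' : Finset (Fin k)} (h : e ⊆ e') (hS : S' ⊆ S) :
    gs I S e ⊆ gs I S' e' := by
  unfold Pool.Agent.H76.GX.gs
  exact Finset.union_subset_union_left (Finset.image_subset_image (Finset.sdiff_subset_sdiff h hS))

theorem rdp_congr {S S' : Finset (Fin k)} {v : Fin k} (h : v ∈ S ↔ v ∈ S') :
    rdp S v = rdp S' v := by
  unfold Pool.Agent.H53.GX.rdp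
  by_cases h1 : v ∈ S
  · rw [if_pos h1, if_pos (h.1 h1)]
  · rw [if_neg h1, if_neg (fun h2 => h1 (h.2 h2))]

theorem map_congr_of {A B : Type} {f : Finset A} {u u' : A → B}
    {q : Fin N → Option A} (hq : ∀ v i, q v = some i → i ∈ f) (h : ∀ v ∈ f, u v = u' v) :
    (fun v => (q v).map u) = fun v => (q v).map u' := by
  funext v
  rcases h1 : q v with _ | i
  · rfl
  · exact congrArg some (h i (hq v i h1))

theorem rse_rs_congr {f : Finset (Fin k)} {u u' : Fin k → Fin (k + k)}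
    (h : ∀ v ∈ f, u v = u' v) (t : Ty τ N (Fin (k + k))) :
    rse f (rs u t) = rse f (rs u' t) := by
  ext q
  constructor
  · rintro ⟨h1, h2⟩
    refine ⟨?_, h2⟩
    change (q.1, fun v => (q.2 v).map u') ∈ t
    rw [← map_congr_of h2 h]
    exact h1
  · rintro ⟨h1, h2⟩
    refine ⟨?_, h2⟩
    change (q.1, fun v => (q.2 v).map u) ∈ t
    rw [map_congr_of h2 h]
    exact h1

theorem rse_rs_gs {I S f : Finset (Fin k)} (hS : S ⊆ I) (t : Ty τ N (Fin (k + k))) :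
    rse f (rs (rdp S) (rse (gs I S f) t)) = rse f (rs (rdp S) t) := by
  ext q
  constructor
  · rintro ⟨h1, h2⟩
    exact ⟨h1.1, h2⟩
  · rintro ⟨h1, h2⟩
    refine ⟨⟨h1, ?_⟩, h2⟩
    intro v i hi
    change (q.2 v).map (rdp S) = some i at hi
    obtain ⟨j, hj, rfl⟩ := Option.map_eq_some_iff.1 hi
    exact rdp_gs hS (h2 v j hj)

theorem fa_mono {F : Set (Str τ (Fin N))} {I S J : Finset (Fin k)} {p p' : Ty τ N (Fin k)}
    {t : Ty τ N (Fin (k + k))} (h : p ⊆ p') : fa F I S J p t ⊆ fa F I S J p' t :=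
  fun _ hq t' ht' h1 h2 => hq t' ht' (h.trans h1) h2

theorem fa_congr {F : Set (Str τ (Fin N))} {I S S' J : Finset (Fin k)} {p : Ty τ N (Fin k)}
    {t t' : Ty τ N (Fin (k + k))} (hS : ∀ v ∈ J, v ∈ S ↔ v ∈ S')
    (h : rse (gs I S J) t = rse (gs I S' J) t') : fa F I S J p t = fa F I S' J p t' := by
  have h1 : S ∩ J = S' ∩ J := by
    ext v
    simp only [Finset.mem_inter]
    constructor
    · rintro ⟨h2, h3⟩
      exact ⟨(hS v h3).1 h2, h3⟩
    · rintro ⟨h2, h3⟩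
      exact ⟨(hS v h3).2 h2, h3⟩
  unfold Pool.Agent.H76.GX.fa
  rw [h1, h]

theorem atc_lt (J : Type) (q : Str τ (Fin N) × (Fin N → Option J)) : atc q < Bd τ N := by
  unfold Pool.Agent.H76.GX.atc Pool.Agent.H76.GX.Bd
  have : Nat.card {x : Σ l : Fin τ.m, (Fin (τ.ar l) → Fin N) // q.1 x.1 x.2} ≤
      Nat.card (Σ l : Fin τ.m, (Fin (τ.ar l) → Fin N)) := Finite.card_subtype_le _
  omega

/-- the set of the numbers of atoms -/
theorem DC_pos {F : Set (Str τ (Fin N))} {I J f : Finset (Fin k)} {c : Nm τ N k L}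
    (h : c.1 ∩ f ⊆ J) :
    DC F I J f c = sInf (insert (Bd τ N) {n | ∃ (i : Fin 6)
    (q : Str τ (Fin N) × (Fin N → Option (Fin (k + k)))), q ∈ rse (gs I c.1 f) (c.2.2.2 i) ∧
      q ∉ fa F I c.1 J (yC f c) (c.2.2.2 i) ∧ atc q = n}) := if_pos h

theorem DC_neg {F : Set (Str τ (Fin N))} {I J f : Finset (Fin k)} {c : Nm τ N k L}
    (h : ¬ c.1 ∩ f ⊆ J) : DC F I J f c = 0 := if_neg h

theorem EqC_symm {I : Finset (Fin k)} {a₀ : Ty τ N (Fin (k + k))} {e : Finset (Fin k)}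
    {c c' : Nm τ N k L} (h : EqC I a₀ e c c') : EqC I a₀ e c' c :=
  ⟨⟨fun v hv => (h.1.sS v hv).symm, fun v hv hvS => ((h.1.sl v hv
    (fun h1 => hvS ((h.1.sS v hv).1 h1))).symm), h.1.sk.symm⟩, fun v hv => (h.2 v hv).symm⟩

end basic

theorem pf_DAX (hLCL : Pool.Agent.H76.GX.T_LCL) (hEX1 : Pool.Agent.H76.GX.T_EX1)
    (hFAX : Pool.Agent.H76.GX.T_FAX) (hDD2 : Pool.Agent.H76.GX.T_DD2) :
    Pool.Agent.H76.GX.T_DAX := by
  intro τ σ N k L F Al ε I a₀ hH hk hL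
  have key : ∀ (J f : Finset (Fin k)) (c c' : CC L F I a₀), J ⊆ f → dgC F ε f c.1 →
      EqC I a₀ f c.1 c'.1 → yC f c.1 = yC f c'.1 ∧ ∀ i q, q ∈ rse (gs I c'.1.1 f) (c'.1.2.2.2 i) →
        q ∉ fa F I c'.1.1 J (yC f c'.1) (c'.1.2.2.2 i) → ∃ j,
          q ∈ rse (gs I c.1.1 f) (c.1.2.2.2 j) ∧
          q ∉ fa F I c.1.1 J (yC f c.1) (c.1.2.2.2 j) := by
    intro J f c c' hJ hd he
    have hl := hLCL τ N k L F I a₀ f c.1 c'.1 hL c.2 c'.2 he.1
    obtain ⟨P, hP, hd⟩ := hd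
    have hy : yC f c.1 = yC f c'.1 := by
      obtain ⟨j, hj⟩ := hl 0
      have h1 : yC f c'.1 = rse f (rs (rdp c.1.1) (c.1.2.2.2 j)) := by
        unfold Pool.Agent.H76.GX.yC
        rw [← rse_rs_gs c'.2.sub (c'.1.2.2.2 0), ← hj, ← rse_rs_gs c.2.sub (c.1.2.2.2 j)]
        exact (rse_rs_congr (fun v hv => rdp_congr (he.1.sS v hv)) _).symm
      rw [h1, hd j]
      exact hd 0
    refine ⟨hy, ?_⟩
    intro i q hq hq'
    obtain ⟨j, hj⟩ := hl i
    refine ⟨j, by rw [hj]; exact hq, fun h => hq' ?_⟩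
    rw [← hy]
    have h1 : fa F I c.1.1 J (yC f c.1) (c.1.2.2.2 j) =
        fa F I c'.1.1 J (yC f c.1) (c'.1.2.2.2 i) := by
      refine fa_congr (fun v hv => he.1.sS v (hJ hv)) ?_
      have h2 : gs I c.1.1 J = gs I c'.1.1 J := gs_congr fun v hv => he.1.sS v (hJ hv)
      have h3 : rse (gs I c.1.1 J) (rse (gs I c.1.1 f) (c.1.2.2.2 j)) =
          rse (gs I c.1.1 J) (c.1.2.2.2 j) := rse_rse (gs_mono hJ (Finset.Subset.refl _)) _
      have h4 : rse (gs I c'.1.1 J) (rse (gs I c'.1.1 f) (c'.1.2.2.2 i)) =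
          rse (gs I c'.1.1 J) (c'.1.2.2.2 i) := rse_rse (gs_mono hJ (Finset.Subset.refl _)) _
      rw [← h3, ← h4, hj, h2]
    rw [← h1]
    exact h
  have hdg : ∀ (f : Finset (Fin k)) (c : CC L F I a₀) (p : Ty τ N (Fin k)), dgC F ε f c.1 →
      rse f p = yC f c.1 → ∀ i, rse f (rs (rdp c.1.1) (c.1.2.2.2 i)) = rse f p := by
    intro f c p hd hp i
    obtain ⟨P, hP, hd⟩ := hd
    rw [hp, hd i]
    exact (hd 0).symm
  have hex : ∀ (e : Finset (Fin k)) (c : CC L F I a₀) (p : Ty τ N (Fin k)), dgC F ε e c.1 →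
      RPe F Al ε none p → rse e p = yC e c.1 →
      (exC F I a₀ e c p).1 = exR F I e c.1 p ∧ EqC I a₀ e (exR F I e c.1 p) c.1 := by
    intro e c p hd hp hy
    obtain ⟨h1, h2⟩ := hEX1 τ N k L F I a₀ e c.1 p hH hk c.2 hp.1 (hdg e c p hd hy)
    refine ⟨?_, h2⟩
    unfold Pool.Agent.H76.GX.exC
    rw [dif_pos h1]
  have deq0 : ∀ J f (c c' : CC L F I a₀), J ⊆ f → dgC F ε f c.1 → EqC I a₀ f c.1 c'.1 →
      DC F I J f c.1 ≤ DC F I J f c'.1 := by
    intro J f c c' hJ hd he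
    by_cases h : c.1.1 ∩ f ⊆ J
    · have h' : c'.1.1 ∩ f ⊆ J := by
        intro v hv
        rw [Finset.mem_inter] at hv
        exact h (Finset.mem_inter.2 ⟨(he.1.sS v hv.2).2 hv.1, hv.2⟩)
      rw [DC_pos h, DC_pos h']
      obtain ⟨hy, hk2⟩ := key J f c c' hJ hd he
      refine Nat.sInf_le ?_
      have hm := Nat.sInf_mem (s := insert (Bd τ N) {n | ∃ (i : Fin 6)
        (q : Str τ (Fin N) × (Fin N → Option (Fin (k + k)))),
        q ∈ rse (gs I c'.1.1 f) (c'.1.2.2.2 i) ∧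
        q ∉ fa F I c'.1.1 J (yC f c'.1) (c'.1.2.2.2 i) ∧ atc q = n}) ⟨_, Set.mem_insert _ _⟩
      rcases hm with hm | ⟨i, q, h1, h2, h3⟩
      · exact Or.inl hm
      · obtain ⟨j, h4, h5⟩ := hk2 i q h1 h2
        exact Or.inr ⟨j, q, h4, h5, h3⟩
    · rw [DC_neg h]
      exact Nat.zero_le _
  have hdsym : ∀ f (c c' : CC L F I a₀), dgC F ε f c.1 → EqC I a₀ f c.1 c'.1 →
      dgC F ε f c'.1 := by
    intro f c c' hd he
    have hl := hLCL τ N k L F I a₀ f c.1 c'.1 hL c.2 c'.2 he.1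
    obtain ⟨P, hP, hd⟩ := hd
    refine ⟨P, hP, fun i => ?_⟩
    obtain ⟨j, hj⟩ := hl i
    rw [← rse_rs_gs c'.2.sub (c'.1.2.2.2 i), ← hj,
      ← rse_rs_congr (fun v hv => rdp_congr (he.1.sS v hv)), rse_rs_gs c.2.sub]
    exact hd j
  refine ⟨?_, ?_, ?_, ?_, ?_, ?_⟩
  · -- bd
    intro J f c
    by_cases h : c.1.1 ∩ f ⊆ J
    · rw [DC_pos h]
      exact Nat.sInf_le (Set.mem_insert _ _)
    · rw [DC_neg h]
      exact Nat.zero_le _
  · -- deq
    intro J f c c' hJ hd he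
    exact le_antisymm (deq0 J f c c' hJ hd he)
      (deq0 J f c' c hJ (hdsym f c c' hd he) (EqC_symm he))
  · -- djj
    intro J c hd
    rw [DC_pos Finset.inter_subset_right]
    have h1 : {n | ∃ (i : Fin 6) (q : Str τ (Fin N) × (Fin N → Option (Fin (k + k)))),
        q ∈ rse (gs I c.1.1 J) (c.1.2.2.2 i) ∧
        q ∉ fa F I c.1.1 J (yC J c.1) (c.1.2.2.2 i) ∧ atc q = n} = ∅ := by
      rw [Set.eq_empty_iff_forall_notMem]
      rintro n ⟨i, q, h1, h2, h3⟩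
      exact h2 fun t' ht' h4 h5 => h5 h1
    rw [h1]
    simp
  · -- d1
    intro J h f c hJh hhf hd
    by_cases h1 : c.1.1 ∩ f ⊆ J
    · have h2 : c.1.1 ∩ h ⊆ J := fun v hv => h1 (Finset.inter_subset_inter_left hhf hv)
      rw [DC_pos h1, DC_pos h2]
      refine Nat.sInf_le ?_
      have hm := Nat.sInf_mem (s := insert (Bd τ N) {n | ∃ (i : Fin 6)
        (q : Str τ (Fin N) × (Fin N → Option (Fin (k + k)))),
        q ∈ rse (gs I c.1.1 h) (c.1.2.2.2 i) ∧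
        q ∉ fa F I c.1.1 J (yC h c.1) (c.1.2.2.2 i) ∧ atc q = n}) ⟨_, Set.mem_insert _ _⟩
      rcases hm with hm | ⟨i, q, h3, h4, h5⟩
      · exact Or.inl hm
      · refine Or.inr ⟨i, q, ⟨h3.1, fun v j hj => gs_mono hhf (Finset.Subset.refl _)
          (h3.2 v j hj)⟩, fun h6 => h4 ?_, h5⟩
        obtain ⟨P, hP, hd⟩ := hd
        have hyf : yC f c.1 ⊆ P := by
          unfold Pool.Agent.H76.GX.yC
          rw [hd 0]
          exact rse_sub
        have hyh : yC h c.1 = rse h P := by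
          unfold Pool.Agent.H76.GX.yC
          have h7 := congrArg (rse h) (hd 0)
          rw [rse_rse hhf, rse_rse hhf] at h7
          exact h7
        have hcJ : rse J P = rse J (rs (rdp c.1.1) (c.1.2.2.2 i)) := by
          have h7 := congrArg (rse J) (hd i)
          rw [rse_rse (hJh.trans hhf), rse_rse (hJh.trans hhf)] at h7
          exact h7.symm
        have h8 := (hFAX τ N k F I c.1.1 J P (c.1.2.2.2 i) hH hk c.2.sub hP.1 (c.2.mx i).1
          hcJ).2.2.2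
        intro t2 ht2 h9 h10
        rw [hyh] at h9
        refine h8 h t2 hJh ht2 h9 h10 ⟨fa_mono hyf h6, fun v j hj => ?_⟩
        exact gs_mono (Finset.Subset.refl _) Finset.inter_subset_left (h3.2 v j hj)
    · rw [DC_neg h1]
      exact Nat.zero_le _
  · -- d2
    intro J h e c p hJh hJe hd hp hy
    rw [(hex e c p hd hp hy).1]
    exact hDD2 τ N k L F I a₀ J h e c.1 p hH hk c.2 hp.1 (hdg e c p hd hy) hJh hJe
  · -- d3
    intro J f c p hJf hd hp hy hD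
    have h1 : c.1.1 ∩ f ⊆ J := by
      by_contra h
      rw [DC_neg h] at hD
      unfold Pool.Agent.H76.GX.Bd at hD
      omega
    have hdJ : dgC F ε J c.1 := by
      obtain ⟨P, hP, hd⟩ := hd
      refine ⟨P, hP, fun i => ?_⟩
      have h7 := congrArg (rse J) (hd i)
      rw [rse_rse hJf, rse_rse hJf] at h7
      exact h7
    have hyJ : rse J p = yC J c.1 := by
      have h7 := congrArg (rse J) hy
      unfold Pool.Agent.H76.GX.yC at h7 ⊢
      rw [rse_rse hJf, rse_rse hJf] at h7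
      exact h7
    rw [(hex J c p hdJ hp hyJ).1]
    have hsub : ∀ i, rse (gs I c.1.1 f) (c.1.2.2.2 i) ⊆ fa F I c.1.1 J p (c.1.2.2.2 i) := by
      intro i q hq
      by_contra h2
      rw [DC_pos h1] at hD
      have h3 : sInf (insert (Bd τ N) {n | ∃ (i : Fin 6)
          (q : Str τ (Fin N) × (Fin N → Option (Fin (k + k)))),
          q ∈ rse (gs I c.1.1 f) (c.1.2.2.2 i) ∧
          q ∉ fa F I c.1.1 J (yC f c.1) (c.1.2.2.2 i) ∧ atc q = n}) ≤ atc q := by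
        refine Nat.sInf_le (Or.inr ⟨i, q, hq, fun h4 => h2 (fa_mono ?_ h4), rfl⟩)
        rw [← hy]
        exact rse_sub
      rw [hD] at h3
      exact absurd h3 (not_le.2 (atc_lt _ q))
    have hSf : ∀ v ∈ f, v ∈ c.1.1 ↔ v ∈ c.1.1 ∩ J := by
      intro v hv
      rw [Finset.mem_inter]
      exact ⟨fun h2 => ⟨h2, h1 (Finset.mem_inter.2 ⟨h2, hv⟩)⟩, fun h2 => h2.1⟩
    have hcon : ∀ i, rse (gs I (c.1.1 ∩ J) f) (fa F I c.1.1 J p (c.1.2.2.2 i)) ⊆
        c.1.2.2.2 i := by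
      intro i
      refine (hFAX τ N k F I c.1.1 J p (c.1.2.2.2 i) hH hk c.2.sub hp.1 (c.2.mx i).1
        (hdg J c p hdJ hyJ i).symm).2.2.2 f (c.1.2.2.2 i) hJf (c.2.mx i).1 ?_ rse_sub
      rw [← hdg f c p hd hy i, rse_rs_congr (fun v hv => rdp_congr (hSf v hv))]
      exact rse_sub
    have hgs : gs I c.1.1 f = gs I (c.1.1 ∩ J) f := gs_congr hSf
    have heq : ∀ i, rse (gs I c.1.1 f) (c.1.2.2.2 i) =
        rse (gs I c.1.1 f) (fa F I c.1.1 J p (c.1.2.2.2 i)) := by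
      intro i
      ext q
      constructor
      · intro hq
        exact ⟨hsub i hq, hq.2⟩
      · intro hq
        refine ⟨hcon i ?_, hq.2⟩
        rw [← hgs]
        exact hq
    have hset : f \ c.1.1 = f \ (c.1.1 ∩ J) := by
      ext v
      simp only [Finset.mem_sdiff]
      constructor
      · rintro ⟨h2, h3⟩
        exact ⟨h2, fun h4 => h3 ((hSf v h2).2 h4)⟩
      · rintro ⟨h2, h3⟩
        exact ⟨h2, fun h4 => h3 ((hSf v h2).1 h4)⟩
    refine ⟨⟨hSf, fun v _ _ => rfl, ?_⟩, fun v _ => rfl⟩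
    change kdx I a₀ c.1 (f \ c.1.1) = kdx I a₀ (exR F I J c.1 p) (f \ (c.1.1 ∩ J))
    rw [← hset]
    unfold Pool.Agent.H53.GX.kdx kd rsG
    have hv : vr (pts (lbx c.1.2.2.1) (ps (f \ c.1.1))) ∪ cst I = gs I c.1.1 f := by
      have : vr (pts (lbx c.1.2.2.1) (ps (f \ c.1.1))) = ps (f \ c.1.1) := by
        unfold vr pts
        rw [Finset.image_image]
        exact Finset.image_id'
      rw [this]
      rfl
    have e1 : (exR F I J c.1 p).2.2.1 = c.1.2.2.1 := rfl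
    have e2 : (exR F I J c.1 p).2.1 = c.1.2.1 := rfl
    have e3 : (exR F I J c.1 p).2.2.2 = fun i => fa F I c.1.1 J p (c.1.2.2.2 i) := rfl
    rw [e1, e2, e3]
    simp only [hv, heq]

end Pool.Agent.H50.GX
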