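import Pool.Agent.H53.GX.Targets
import Pool.Agent.H50.GM.RED

/-!
# Forbidden coloured patterns, no precolouring: the reduction is computable in polynomial time
-/

set_option autoImplicit false

namespace Pool.Agent.H50.GX

open Pool.Agent.H1.NP Pool.Agent.H1.PNP
open Pool.Agent.H68.OQP hiding eN eE eB
open Pool.Agent.H68.NPH hiding prs eN
open Function
open Pool.Agent.H68.BP (ph cV cC eE eN eZ code code_eq CSP csp_code csp_true code_of_cV ph_vals
  strOf polyOn_numsR lgF Sig Str IsHom)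
open Pool.Agent.H68.BT (Wg Cv Corr rowG rowG_length rowG_map rowG_mem rowG_getD csp_nil)
open Pool.Agent.H53.GC (arP relP Sym sigOf strOn)
open Pool.Agent.H53.GR (Ps pls)
open Pool.Agent.H53.GM (DmG)
open Pool.Agent.H53.GX (FmX tmX)
open Pool.Agent.H3.GR.RED

theorem pf_RDX (hREAX : Pool.Agent.H53.GX.T_REAX) (hREBX : Pool.Agent.H53.GX.T_REBX) :
    Pool.Agent.H53.GX.T_RDX := by
  intro τ σ N F Al A 𝔸 hH hT
  have hne : Nonempty (DmG τ N) := ⟨⟨⟨0, hH.pos⟩, ∅⟩⟩
  have key : ∀ (n : ℕ) (𝕏 : Str σ (Fin n)), (∃ f, IsHom 𝕏 𝔸 f) ↔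
      ∃ q : (j : Fin N) → (Fin (j + 1) → Fin (n + N)) → DmG τ N,
        ∀ (s : Option (Fin σ.m)) (y : Fin (arP σ N s) → Fin (n + N))
          (t : Fin (arP σ N s) → Fin (arP σ N s)),
          relP (pls 𝕏 N) N s y →
          (∀ a b, y a ≤ y b ↔ t a ≤ t b) →
          FmX F Al s t (fun p => q p.1 (fun i => y (p.2 i))) := by
    intro n 𝕏
    rw [hT n 𝕏]
    constructor
    · rintro ⟨M, hM, hc⟩
      exact hREAX τ σ N F Al hH n 𝕏 M hM hc
    · rintro ⟨q, hq⟩
      exact hREBX τ σ N F Al hH n 𝕏 q hq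
  refine manyOne (polyOn_red (σ := σ) (M := N))
    (Q := fun l => CSP (tmX F Al) (unary l) = true) (fun p => Iff.rfl) (fun x => ?_)
  by_cases h : cV.tv (ph (σ.width + 1) x) []
  · obtain ⟨n, Ls, e1, rfl⟩ := code_of_cV h
    obtain ⟨L', e2, e3, e4⟩ := red_code (M := N) (n := n) e1
    rw [csp_code 𝔸 e1, e3, csp_code (tmX F Al) e2, key n (strOf σ n Ls)]
    exact Pool.Agent.H50.GM.hom_iffG (fun (s : Sym σ N) q => FmX F Al s.1 s.2 q) e4
  · constructor
    · intro hx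
      obtain ⟨n, Ls, h1, rfl⟩ := csp_true 𝔸 hx
      obtain ⟨M', hM, h0, -, -, h3, -⟩ := ph_vals (n := n) h1
      refine absurd ?_ h
      rw [hM]
      simp only [cV, tv_and, tv_le, tv_eq, Ex.val, h0, h3]
      exact ⟨le_rfl, trivial⟩
    · intro hx
      rw [red_bad h] at hx
      exact absurd hx (csp_nil _)

end Pool.Agent.H50.GX
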