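import Pool.Agent.H53.GX.Targets

/-!
# Forbidden coloured patterns, no precolouring: realization of good systems in the template
-/

set_option autoImplicit false

namespace Pool.Agent.H50.GX

open Pool.Agent.H68.BP Pool.Agent.H58.SF Pool.Agent.H53.GM Pool.Agent.H53.GX
open Classical

theorem pf_REX (hATM : Pool.Agent.H53.GM.T_ATM) : Pool.Agent.H53.GX.T_REX := by
  intro τ σ N k F Al A 𝔸 hH hT I V _ C hC hG
  obtain ⟨W', hW', M, f0, a0, hMv, hM⟩ := hG
  -- the tuple of a guard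
  let bG : Finset V → Fin k → W' := fun G v =>
    if h : ∃ x ∈ G, C.pt x = v then f0 h.choose else a0 v
  have hbG1 : ∀ G v, (∃ x ∈ G, C.pt x = v ∧ bG G v = f0 x) ∨
      ((¬ ∃ x ∈ G, C.pt x = v) ∧ bG G v = a0 v) := by
    intro G v
    by_cases h : ∃ x ∈ G, C.pt x = v
    · left
      refine ⟨h.choose, h.choose_spec.1, h.choose_spec.2, ?_⟩
      simp only [bG, dif_pos h]
    · right
      refine ⟨h, ?_⟩
      simp only [bG, dif_neg h]
  have hdis : ∀ G t, C.gd G t → ∀ x ∈ G, C.pt x ∉ I := by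
    intro G t hg x hx hI
    have h1 := (hC.ok G t hg).1
    exact Finset.disjoint_left.1 h1 ((@Finset.mem_image _ _ (_) _ _ _).2 ⟨x, hx, rfl⟩) hI
  have hinj : ∀ G t, C.gd G t → ∀ x ∈ G, ∀ x' ∈ G, C.pt x = C.pt x' → x = x' :=
    fun G t hg x hx x' hx' h => hC.tr G t hg hx hx' h
  have hbGI : ∀ G t, C.gd G t → ∀ v ∈ I, bG G v = a0 v := by
    intro G t hg v hv
    rcases hbG1 G v with ⟨x, hx, hx', e⟩ | ⟨-, e⟩
    · exact absurd (hx' ▸ hv) (hdis G t hg x hx)
    · exact e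
  have hbGx : ∀ G t, C.gd G t → ∀ x ∈ G, bG G (C.pt x) = f0 x := by
    intro G t hg x hx
    rcases hbG1 G (C.pt x) with ⟨x', hx', h1, e⟩ | ⟨h, -⟩
    · rw [e, hinj G t hg x' hx' x hx h1]
    · exact absurd ⟨x, hx, rfl⟩ h
  have hty : ∀ G t, C.gd G t → rse (G.image C.pt ∪ I) (tp N M (bG G)) = t := by
    intro G t hg
    exact hM G t hg (bG G) (fun v hv => hbGI G t hg v hv) (fun x hx => hbGx G t hg x hx)
  -- the structure of all allowed colours
  let 𝕏 : Str σ W' := fun l z => ∃ c, Al l c ∧ ∃ h : τ.ar c = σ.ar l,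
    M c (fun i => z (Fin.cast h i))
  obtain ⟨Φ, hΦ⟩ : ∃ Φ : W' → A, IsHom 𝕏 𝔸 Φ := by
    let e := Finite.equivFin W'
    obtain ⟨Φ, hΦ⟩ := (hT (Nat.card W') (fun l z => 𝕏 l (fun i => e.symm (z i)))).2
      ⟨fun c z => M c (fun i => e.symm (z i)), Val.of_hom (f := e.symm) hMv (fun l z hz => hz),
        fun l z hz => hz⟩
    refine ⟨fun x => Φ (e x), fun l z hz => ?_⟩
    refine hΦ l (fun i => e (z i)) ?_
    change 𝕏 l (fun i => e.symm (e (z i)))
    simp only [Equiv.symm_apply_apply]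
    exact hz
  refine ⟨fun x => Φ (f0 x), fun v => Φ (a0 v), ?_⟩
  intro G t hgd b hbI hbx l z hz hl
  have hb : ∀ v ∈ G.image C.pt ∪ I, b v = Φ (bG G v) := by
    intro v hv
    rcases hbG1 G v with ⟨x, hx, h1, e⟩ | ⟨h1, e⟩
    · rw [e, ← h1]
      exact hbx x hx
    · rw [e]
      refine hbI v ?_
      rcases Finset.mem_union.1 hv with h2 | h2
      · obtain ⟨x, hx, h3⟩ := Finset.mem_image.1 h2
        exact absurd ⟨x, hx, h3⟩ h1
      · exact h2
  obtain ⟨c, hc, h, h1⟩ := hl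
  rw [← hty G t hgd] at h1
  have h2 := (hATM τ N F W' (Fin k) M (bG G) c (fun i => z (Fin.cast h i)) hH).1 h1.1
  have h3 := hΦ l (fun i => bG G (z i)) ⟨c, hc, h, h2⟩
  have h4 : (fun i => b (z i)) = fun i => Φ (bG G (z i)) := funext fun i => hb _ (hz i)
  rw [h4]
  exact h3

end Pool.Agent.H50.GX
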